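import Pool.Agent.KS6_13.SP.Tree

set_option autoImplicit false
set_option linter.all false

namespace Pool.Agent.KS6_13.SP

open Pool.Agent.R906.SP Polynomial
open Pool.Agent.Results.MP_dc922b_co.SurfaceInversions
open scoped Classical

/-- the finite set of parent maps of uprooted trees with root `r` -/
noncomputable def Gr {n : ℕ} (r : Fin n) : Finset (Fin n → Fin n) :=
  G Finset.univ r (Finset.univ.filter (fun x => x < r))

theorem card_trees_root (n k : ℕ) (r : Fin n) :
    Nat.card {T : RootedTree n // T.Uprooted ∧ T.root = r ∧ T.surfaceInversions = k} =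
    ((Gr r).filter (fun p => inv' r p = k)).card := by
  have hm : ∀ p, p ∈ (Gr r).filter (fun p => inv' r p = k) ↔
      IsG Finset.univ r (Finset.univ.filter (fun x => x < r)) p ∧ inv' r p = k := by
    intro p
    unfold Gr
    rw [Finset.mem_filter, mem_G]
  rw [← Nat.subtype_card (p := fun z => z ∈ (Gr r).filter (fun p => inv' r p = k)) _
    (fun x => Iff.rfl)]
  apply Nat.card_congr
  refine ⟨fun T => ⟨T.1.parent, ?_⟩, fun z => ⟨⟨r, z.1, ?_, ?_⟩, ?_, rfl, ?_⟩, ?_, ?_⟩
  · obtain ⟨T, h1, h2, h3⟩ := T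
    subst h2
    rw [hm]
    refine ⟨⟨fun x hx => absurd (Finset.mem_univ x) hx,
      fun x _ => Finset.mem_univ _, T.parent_root, fun x _ => T.reaches_root x, ?_⟩, ?_⟩
    · intro x _ hx1 hx2
      rw [Finset.mem_filter]
      exact ⟨Finset.mem_univ _, h1 x hx1 hx2⟩
    · rw [← surf_eq]; exact h3
  · exact ((hm _).1 z.2).1.2.2.1
  · exact fun v => ((hm _).1 z.2).1.2.2.2.1 v (Finset.mem_univ v)
  · intro v hv1 hv2
    have := ((hm _).1 z.2).1.2.2.2.2 v (Finset.mem_univ v) hv1 hv2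
    rw [Finset.mem_filter] at this
    exact this.2
  · rw [surf_eq]
    exact ((hm _).1 z.2).2
  · rintro ⟨T, h1, h2, h3⟩
    subst h2
    rfl
  · intro z
    rfl

theorem poly_eq_root {n : ℕ} (hn : 1 ≤ n) (r : Fin n) :
    ∑ a ∈ (PrSet (Finset.univ : Finset (Fin n))).filter (Lst r),
      (X : ℝ[X]) ^ (n.choose 2 + 1 - ∑ i, a i) =
      ∑ p ∈ Gr r, (X : ℝ[X]) ^ (inv' r p) := by
  apply Polynomial.eq_of_infinite_eval_eq
  apply Set.Infinite.mono _ (Set.Ioi_infinite (1 : ℝ))
  intro q hq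
  rw [Set.mem_Ioi] at hq
  rw [Set.mem_ofPred_eq]
  have hq0 : (0 : ℝ) < q := by linarith
  rw [Polynomial.eval_finsetSum, Polynomial.eval_finsetSum]
  simp only [Polynomial.eval_pow, Polynomial.eval_X]
  have h1 : ∑ a ∈ (PrSet (Finset.univ : Finset (Fin n))).filter (Lst r),
      q ^ (n.choose 2 + 1 - ∑ i, a i) = Rr q r (Finset.univ : Finset (Fin n)) := by
    unfold Rr PrSr
    rw [Finset.card_univ, Fintype.card_fin, Finset.mul_sum]
    apply Finset.sum_congr rfl
    intro a ha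
    have hle := spherical_sum_le hn ((spherical_iff hn a).2
      (mem_PrSet.1 (Finset.mem_filter.1 ha).1).1)
    obtain ⟨m, hm⟩ := Nat.exists_eq_add_of_le hle
    rw [hm, Nat.add_sub_cancel_left, pow_add, one_div_pow]
    field_simp
  have h2 : ∑ p ∈ Gr r, q ^ (inv' r p) =
      W q (Finset.univ.erase r) (Finset.univ.filter (fun x => x < r)) :=
    detach_sum q _ (Finset.mem_univ r)
  rw [h1, h2]
  exact (Wr_eq_Rr hq r n _ (by simp) (Finset.mem_univ r)).symm

theorem final : ∀ n : ℕ, 1 ≤ n → ∀ (k : ℕ) (r : Fin n),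
    Nat.card {a : Fin n → ℕ // Spherical a ∧ ∑ i, a i + k = n.choose 2 + 1 ∧
        a r = 1 ∧ ∀ i, r < i → a i ≠ 1} =
      Nat.card {T : RootedTree n // T.Uprooted ∧ T.root = r ∧ T.surfaceInversions = k} := by
  intro n hn k r
  rw [card_trees_root]
  have h1 : Nat.card {a : Fin n → ℕ // Spherical a ∧ ∑ i, a i + k = n.choose 2 + 1 ∧
        a r = 1 ∧ ∀ i, r < i → a i ≠ 1} =
      (((PrSet (Finset.univ : Finset (Fin n))).filter (Lst r)).filter
        (fun a => n.choose 2 + 1 - ∑ i, a i = k)).card := by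
    rw [Nat.subtype_card]
    intro a
    rw [Finset.mem_filter, Finset.mem_filter, mem_PrSet, ← spherical_iff hn]
    constructor
    · rintro ⟨⟨⟨h1, -⟩, h3⟩, h2⟩
      have := spherical_sum_le hn h1
      exact ⟨h1, by omega, h3⟩
    · rintro ⟨h1, h2, h3⟩
      exact ⟨⟨⟨h1, fun x hx => absurd (Finset.mem_univ x) hx⟩, h3⟩, by omega⟩
  rw [h1]
  have h2 := congrArg (fun P => Polynomial.coeff P k) (poly_eq_root hn r)
  simp only [coeff_sum] at h2
  exact_mod_cast h2

end Pool.Agent.KS6_13.SP
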