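import Pool.Graph.R_seed8.Results.MP_dc922b_co.SurfaceInversions

set_option autoImplicit false
set_option linter.all false

namespace Pool.Agent.KS6_13.SP

open Finset Filter Topology
open Pool.Agent.R906.SP

variable {ι : Type} [Fintype ι] [LinearOrder ι]

/-- the last entry `1` is at `r` -/
def Lst (r : ι) (a : ι → ℕ) : Prop := a r = 1 ∧ ∀ x, r < x → a x ≠ 1

open Classical in
noncomputable def PrSr (r : ι) (J : Finset ι) (t : ℝ) : ℝ :=
  ∑ b ∈ (PrSet J).filter (Lst r), t ^ (∑ x, b x)

open Classical in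
theorem tot_sum {X : Finset ι} {r : ι} (hr : r ∈ X) {L : ℕ} (hL : 1 ≤ L) (t : ℝ) :
    ∑ a ∈ (Pf X 1 L).filter (Lst r), t ^ (∑ x, a x) =
      (∑ i ∈ Finset.Icc 1 L, t ^ i) ^ (X.filter (fun x => x < r)).card * t *
        (∑ i ∈ Finset.Icc 2 L, t ^ i) ^ (X.filter (fun x => r < x)).card := by
  have h1 : (Pf X 1 L).filter (Lst r) = Fintype.piFinset (fun x => if x ∈ X then
      (if x < r then Finset.Icc 1 L else if x = r then {1} else Finset.Icc 2 L) else {0}) := by
    ext a
    rw [Finset.mem_filter, mem_Pf, Fintype.mem_piFinset]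
    constructor
    · rintro ⟨⟨h1, h2⟩, h3, h4⟩ x
      by_cases hx : x ∈ X
      · rw [if_pos hx]
        rcases lt_trichotomy x r with h | h | h
        · rw [if_pos h, Finset.mem_Icc]; exact h1 x hx
        · rw [if_neg (by rw [h]; exact lt_irrefl _), if_pos h, h, Finset.mem_singleton]; exact h3
        · rw [if_neg (lt_asymm h), if_neg h.ne', Finset.mem_Icc]
          have := h1 x hx
          have := h4 x h
          omega
      · rw [if_neg hx, Finset.mem_singleton]; exact h2 x hx
    · intro h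
      have hlt : ∀ x ∈ X, x < r → 1 ≤ a x ∧ a x ≤ L := by
        intro x hx hxr
        have := h x
        rw [if_pos hx, if_pos hxr, Finset.mem_Icc] at this
        exact this
      have heq : a r = 1 := by
        have := h r
        rw [if_pos hr, if_neg (lt_irrefl _), if_pos rfl, Finset.mem_singleton] at this
        exact this
      have hgt : ∀ x ∈ X, r < x → 2 ≤ a x ∧ a x ≤ L := by
        intro x hx hxr
        have := h x
        rw [if_pos hx, if_neg (lt_asymm hxr), if_neg hxr.ne', Finset.mem_Icc] at this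
        exact this
      have h0 : ∀ x, x ∉ X → a x = 0 := by
        intro x hx
        have := h x
        rw [if_neg hx, Finset.mem_singleton] at this
        exact this
      refine ⟨⟨fun x hx => ?_, h0⟩, heq, fun x hx => ?_⟩
      · rcases lt_trichotomy x r with h | h | h
        · exact hlt x hx h
        · rw [h, heq]; omega
        · have := hgt x hx h; omega
      · by_cases hxX : x ∈ X
        · have := hgt x hxX hx; omega
        · rw [h0 x hxX]; omega
  rw [h1]
  simp_rw [← Finset.prod_pow_eq_pow_sum]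
  rw [← Finset.prod_univ_sum (fun x => if x ∈ X then
      (if x < r then Finset.Icc 1 L else if x = r then {1} else Finset.Icc 2 L) else {0})
      (fun _ j => t ^ j)]
  have h2 : ∀ x : ι, ∑ j ∈ (if x ∈ X then
      (if x < r then Finset.Icc 1 L else if x = r then {1} else Finset.Icc 2 L) else {0}), t ^ j =
      if x ∈ X then (if x < r then ∑ i ∈ Finset.Icc 1 L, t ^ i else
        if x = r then t else ∑ i ∈ Finset.Icc 2 L, t ^ i) else 1 := by
    intro x
    split_ifs <;> simp
  rw [Finset.prod_congr rfl (fun x _ => h2 x), Finset.prod_ite_mem, Finset.univ_inter,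
    Finset.prod_ite, Finset.prod_const, mul_assoc]
  congr 1
  have h3 : X.filter (fun x => ¬ x < r) = insert r (X.filter (fun x => r < x)) := by
    ext x
    rw [Finset.mem_filter, Finset.mem_insert, Finset.mem_filter]
    constructor
    · rintro ⟨h1, h2⟩
      rcases lt_trichotomy x r with h | h | h
      · exact absurd h h2
      · exact Or.inl h
      · exact Or.inr ⟨h1, h⟩
    · rintro (h | ⟨h1, h2⟩)
      · rw [h]; exact ⟨hr, lt_irrefl _⟩
      · exact ⟨h1, lt_asymm h2⟩
  rw [h3, Finset.prod_insert (by simp), if_pos rfl]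
  congr 1
  rw [← Finset.prod_const]
  apply Finset.prod_congr rfl
  intro x hx
  rw [Finset.mem_filter] at hx
  rw [if_neg hx.2.ne']

open Classical in
theorem ind_sum {X : Finset ι} {L : ℕ} {a : ι → ℕ} {r : ι} (hr : r ∈ X)
    (ha : a ∈ (Pf X 1 L).filter (Lst r)) :
    ∑ J ∈ X.powerset.filter (fun J => r ∈ J), (if Good X J a then (1 : ℝ) else 0) = 1 := by
  rw [Finset.mem_filter] at ha
  have h1 := indicator_sum ha.1
  rw [if_neg (fun h => by have := h r hr; have := ha.2.1; omega), zero_add] at h1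
  refine Eq.trans ?_ h1
  apply Finset.sum_subset
  · intro J hJ
    rw [Finset.mem_filter] at hJ ⊢
    exact ⟨hJ.1, ⟨r, hJ.2⟩⟩
  · intro J hJ hJ'
    rw [Finset.mem_filter] at hJ hJ'
    have hrJ : r ∉ J := fun h => hJ' ⟨hJ.1, h⟩
    rw [if_neg]
    intro hg
    have h2 := hg.2 r (Finset.mem_sdiff.2 ⟨hr, hrJ⟩)
    have h3 : 1 ≤ J.card := Finset.card_pos.2 hJ.2
    have := ha.2.1
    omega

open Classical in
theorem good_sum' {X J : Finset ι} {r : ι} (hJ : J ⊆ X) (hrJ : r ∈ J) {L : ℕ} (hL : X.card ≤ L)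
    (t : ℝ) :
    ∑ a ∈ ((Pf X 1 L).filter (Lst r)).filter (Good X J), t ^ (∑ x, a x) =
      PrSr r J t * ∑ c ∈ Pf (X \ J) (J.card + 1) L, t ^ (∑ x, c x) := by
  unfold PrSr
  rw [Finset.sum_mul_sum, ← Finset.sum_product']
  have hJL : J.card ≤ L := (Finset.card_le_card hJ).trans hL
  have hJ1 : 1 ≤ J.card := Finset.card_pos.2 ⟨r, hrJ⟩
  apply Finset.sum_nbij' (fun a => ((fun x => if x ∈ J then a x else 0),
      (fun x => if x ∈ J then 0 else a x))) (fun z => z.1 + z.2)
  · intro a ha
    rw [Finset.mem_filter, Finset.mem_filter, mem_Pf] at ha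
    obtain ⟨⟨⟨ha1, ha2⟩, hl1, hl2⟩, hg⟩ := ha
    rw [Finset.mem_product, Finset.mem_filter, mem_PrSet, mem_Pf]
    refine ⟨⟨⟨(Prm_congr (fun x hx => by simp [hx])).1 hg.1, fun x hx => by simp [hx]⟩, ?_, ?_⟩,
      ?_, ?_⟩
    · show (if r ∈ J then a r else 0) = 1
      rw [if_pos hrJ]; exact hl1
    · intro x hx
      show (if x ∈ J then a x else 0) ≠ 1
      split_ifs
      · exact hl2 x hx
      · omega
    · intro x hx
      rw [Finset.mem_sdiff] at hx
      simp only [if_neg hx.2]
      exact ⟨hg.2 x (Finset.mem_sdiff.2 hx), (ha1 x hx.1).2⟩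
    · intro x hx
      rw [Finset.mem_sdiff] at hx
      by_cases hxJ : x ∈ J
      · simp [hxJ]
      · simp only [if_neg hxJ]
        apply ha2
        intro hxX
        exact hx ⟨hxX, hxJ⟩
  · rintro ⟨b, c⟩ hz
    rw [Finset.mem_product, Finset.mem_filter, mem_PrSet, mem_Pf] at hz
    obtain ⟨⟨⟨hb1, hb2⟩, hl1, hl2⟩, hc1, hc2⟩ := hz
    dsimp only at hb1 hb2 hc1 hc2 hl1 hl2
    have hcJ : ∀ x ∈ J, c x = 0 := fun x hx => hc2 x (by rw [Finset.mem_sdiff]; exact fun h => h.2 hx)
    rw [Finset.mem_filter, Finset.mem_filter, mem_Pf]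
    refine ⟨⟨⟨?_, ?_⟩, ?_, ?_⟩, ?_, ?_⟩
    · intro x hx
      simp only [Pi.add_apply]
      by_cases hxJ : x ∈ J
      · have := hb1.1 x hxJ
        have := Prm_le hb1 x hxJ
        rw [hcJ x hxJ]
        omega
      · rw [hb2 x hxJ]
        have := hc1 x (Finset.mem_sdiff.2 ⟨hx, hxJ⟩)
        omega
    · intro x hx
      simp only [Pi.add_apply]
      rw [hb2 x (fun h => hx (hJ h)), hc2 x (fun h => hx (Finset.mem_sdiff.1 h).1)]
    · simp only [Pi.add_apply]
      rw [hcJ r hrJ, hl1]
    · intro x hx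
      simp only [Pi.add_apply]
      by_cases hxJ : x ∈ J
      · rw [hcJ x hxJ, add_zero]; exact hl2 x hx
      · rw [hb2 x hxJ, zero_add]
        by_cases hxX : x ∈ X
        · have := hc1 x (Finset.mem_sdiff.2 ⟨hxX, hxJ⟩)
          omega
        · rw [hc2 x (fun h => hxX (Finset.mem_sdiff.1 h).1)]; omega
    · exact (Prm_congr (fun x hx => by simp [hcJ x hx])).2 hb1
    · intro x hx
      simp only [Pi.add_apply]
      rw [hb2 x (Finset.mem_sdiff.1 hx).2, zero_add]
      exact (hc1 x hx).1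
  · intro a _
    funext x
    simp only [Pi.add_apply]
    split_ifs <;> simp
  · rintro ⟨b, c⟩ hz
    rw [Finset.mem_product, Finset.mem_filter, mem_PrSet, mem_Pf] at hz
    obtain ⟨⟨⟨hb1, hb2⟩, hl1, hl2⟩, hc1, hc2⟩ := hz
    dsimp only at hb1 hb2 hc1 hc2
    have hcJ : ∀ x ∈ J, c x = 0 := fun x hx => hc2 x (by rw [Finset.mem_sdiff]; exact fun h => h.2 hx)
    simp only [Pi.add_apply, Prod.mk.injEq]
    constructor
    · funext x
      by_cases hxJ : x ∈ J
      · rw [if_pos hxJ, hcJ x hxJ, add_zero]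
      · rw [if_neg hxJ, hb2 x hxJ]
    · funext x
      by_cases hxJ : x ∈ J
      · rw [if_pos hxJ, hcJ x hxJ]
      · rw [if_neg hxJ, hb2 x hxJ, zero_add]
  · intro a _
    simp only []
    rw [← pow_add, ← Finset.sum_add_distrib]
    congr 1
    apply Finset.sum_congr rfl
    intro x _
    split_ifs <;> simp

open Classical in
theorem prime_rec' (X : Finset ι) {r : ι} (hr : r ∈ X) {L : ℕ} (hL : X.card ≤ L) (t : ℝ) :
    (∑ i ∈ Finset.Icc 1 L, t ^ i) ^ (X.filter (fun x => x < r)).card * t *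
        (∑ i ∈ Finset.Icc 2 L, t ^ i) ^ (X.filter (fun x => r < x)).card =
      ∑ J ∈ X.powerset.filter (fun J => r ∈ J),
        PrSr r J t * (∑ i ∈ Finset.Icc (J.card + 1) L, t ^ i) ^ (X.card - J.card) := by
  have hL1 : 1 ≤ L := (Finset.card_pos.2 ⟨r, hr⟩).trans_le hL
  rw [← tot_sum hr hL1]
  have h1 : ∀ J ∈ X.powerset.filter (fun J => r ∈ J),
      PrSr r J t * (∑ i ∈ Finset.Icc (J.card + 1) L, t ^ i) ^ (X.card - J.card) =
        ∑ a ∈ (Pf X 1 L).filter (Lst r), (if Good X J a then (1 : ℝ) else 0) * t ^ (∑ x, a x) := by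
    intro J hJ
    rw [Finset.mem_filter, Finset.mem_powerset] at hJ
    rw [← Finset.card_sdiff_of_subset hJ.1, ← sum_Pf, ← good_sum' hJ.1 hJ.2 hL t,
      Finset.sum_filter]
    apply Finset.sum_congr rfl
    intro a _
    rw [ite_mul, one_mul, zero_mul]
  rw [Finset.sum_congr rfl h1, Finset.sum_comm]
  apply Finset.sum_congr rfl
  intro a ha
  rw [← Finset.sum_mul, ind_sum hr ha, one_mul]

theorem prime_lim' (X : Finset ι) {r : ι} (hr : r ∈ X) {t : ℝ} (h0 : 0 < t) (h1 : t < 1) :
    (t ^ (0 + 1) / (1 - t)) ^ (X.filter (fun x => x < r)).card * t *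
        (t ^ (1 + 1) / (1 - t)) ^ (X.filter (fun x => r < x)).card =
      ∑ J ∈ X.powerset.filter (fun J => r ∈ J),
        PrSr r J t * (t ^ (J.card + 1) / (1 - t)) ^ (X.card - J.card) := by
  have hl : Tendsto (fun L : ℕ => (∑ i ∈ Finset.Icc 1 L, t ^ i) ^
      (X.filter (fun x => x < r)).card * t *
        (∑ i ∈ Finset.Icc 2 L, t ^ i) ^ (X.filter (fun x => r < x)).card) atTop
      (𝓝 ((t ^ (0 + 1) / (1 - t)) ^ (X.filter (fun x => x < r)).card * t *
        (t ^ (1 + 1) / (1 - t)) ^ (X.filter (fun x => r < x)).card)) :=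
    (((geom_tendsto h0 h1 1).pow _).mul_const t).mul ((geom_tendsto h0 h1 2).pow _)
  have hr' : Tendsto (fun L : ℕ => ∑ J ∈ X.powerset.filter (fun J => r ∈ J),
        PrSr r J t * (∑ i ∈ Finset.Icc (J.card + 1) L, t ^ i) ^ (X.card - J.card)) atTop
      (𝓝 (∑ J ∈ X.powerset.filter (fun J => r ∈ J),
        PrSr r J t * (t ^ (J.card + 1) / (1 - t)) ^ (X.card - J.card))) := by
    apply tendsto_finsetSum
    intro J _
    exact ((geom_tendsto h0 h1 (J.card + 1)).pow _).const_mul _
  refine tendsto_nhds_unique hl (hr'.congr' ?_)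
  filter_upwards [eventually_ge_atTop X.card] with L hL
  exact (prime_rec' X hr hL t).symm

noncomputable def Rr (q : ℝ) (r : ι) (J : Finset ι) : ℝ :=
  q ^ (J.card.choose 2 + 1) * PrSr r J (1 / q)

theorem card_split (X : Finset ι) {r : ι} (hr : r ∈ X) :
    X.card = (X.filter (fun x => x < r)).card + (X.filter (fun x => r < x)).card + 1 := by
  have h3 : X.filter (fun x => ¬ x < r) = insert r (X.filter (fun x => r < x)) := by
    ext x
    rw [Finset.mem_filter, Finset.mem_insert, Finset.mem_filter]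
    constructor
    · rintro ⟨h1, h2⟩
      rcases lt_trichotomy x r with h | h | h
      · exact absurd h h2
      · exact Or.inl h
      · exact Or.inr ⟨h1, h⟩
    · rintro (h | ⟨h1, h2⟩)
      · rw [h]; exact ⟨hr, lt_irrefl _⟩
      · exact ⟨h1, lt_asymm h2⟩
  have h4 := Finset.card_filter_add_card_filter_not (s := X) (fun x => x < r)
  rw [h3, Finset.card_insert_of_notMem (by simp)] at h4
  omega

theorem Rr_rec (X : Finset ι) {r : ι} (hr : r ∈ X) {q : ℝ} (hq : 1 < q) :
    ∑ J ∈ X.powerset.filter (fun J => r ∈ J),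
      (q - 1) ^ J.card * Rr q r J * q ^ ((X.card - J.card).choose 2) =
      (q - 1) * (q ^ ((X.card - 1).choose 2) * q ^ (X.filter (fun x => x < r)).card) := by
  have hq0 : (0 : ℝ) < q := by linarith
  have hq1 : q - 1 ≠ 0 := by linarith
  have ht0 : 0 < 1 / q := by positivity
  have ht1 : 1 / q < 1 := by rw [div_lt_one hq0]; exact hq
  have h := prime_lim' X hr ht0 ht1
  have e : ∀ k : ℕ, (1 / q) ^ (k + 1) / (1 - 1 / q) = 1 / (q ^ k * (q - 1)) := by
    intro k
    have h1 : (1 - 1 / q) = (q - 1) / q := by field_simp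
    rw [h1, one_div_pow, pow_succ]
    field_simp
  simp_rw [e] at h
  have hc := card_split X hr
  set l := (X.filter (fun x => x < r)).card with hl
  set g := (X.filter (fun x => r < x)).card with hg
  have hch : X.card.choose 2 + 1 = (X.card - 1).choose 2 + l + g + 1 := by
    have := choose_add (X.card - 1) 1
    rw [Nat.sub_add_cancel (by omega)] at this
    simp at this
    omega
  have h2 : q ^ (X.card.choose 2 + 1) * (q - 1) ^ X.card *
      ((1 / (q ^ 0 * (q - 1))) ^ l * (1 / q) * (1 / (q ^ 1 * (q - 1))) ^ g) =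
      (q - 1) * (q ^ ((X.card - 1).choose 2) * q ^ l) := by
    rw [hch, hc, Nat.add_sub_cancel]
    rw [pow_add, pow_add, pow_add, pow_add (q - 1), pow_add (q - 1)]
    rw [pow_zero, one_mul, div_pow, div_pow, one_pow, one_pow, pow_one, mul_pow]
    field_simp
  have h4 : ∀ J ∈ X.powerset.filter (fun J => r ∈ J),
      q ^ (X.card.choose 2 + 1) * (q - 1) ^ X.card *
        (PrSr r J (1 / q) * (1 / (q ^ J.card * (q - 1))) ^ (X.card - J.card)) =
      (q - 1) ^ J.card * Rr q r J * q ^ ((X.card - J.card).choose 2) := by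
    intro J hJ
    rw [Finset.mem_filter, Finset.mem_powerset] at hJ
    have hle := Finset.card_le_card hJ.1
    obtain ⟨m, hm⟩ := Nat.exists_eq_add_of_le hle
    rw [hm, Nat.add_sub_cancel_left, choose_add]
    unfold Rr
    rw [div_pow, one_pow, mul_pow, ← pow_mul]
    rw [show J.card.choose 2 + m.choose 2 + J.card * m + 1 =
      (J.card.choose 2 + 1) + m.choose 2 + J.card * m by ring]
    rw [pow_add q, pow_add q, pow_add (q - 1)]
    field_simp
  have h5 := congrArg (fun z => q ^ (X.card.choose 2 + 1) * (q - 1) ^ X.card * z) h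
  simp only [Finset.mul_sum] at h5
  rw [h2, Finset.sum_congr rfl h4] at h5
  exact h5.symm

end Pool.Agent.KS6_13.SP
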