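import Pool.Agent.KS6_13.SP.Park

set_option autoImplicit false
set_option linter.all false

namespace Pool.Agent.KS6_13.SP

open Finset
open Pool.Agent.R906.SP
open scoped Classical

variable {ι : Type} [Fintype ι] [LinearOrder ι]

theorem Wr_rec (X : Finset ι) {r : ι} (hr : r ∈ X) (q : ℝ) :
    ∑ J ∈ X.powerset.filter (fun J => r ∈ J), (q - 1) ^ J.card *
        W q (J.erase r) (Finset.univ.filter (fun x => x < r)) * q ^ ((X.card - J.card).choose 2) =
        (q - 1) * (q ^ ((X.card - 1).choose 2) * q ^ (X.filter (fun x => x < r)).card) := by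
  obtain ⟨w, hw'⟩ := W_indep (ι := ι) q (Fintype.card ι + 1)
  have hw : ∀ V : Finset ι, W q V Finset.univ = w V.card := fun V =>
    hw' V (Nat.lt_succ_of_le (Finset.card_le_univ V))
  rw [sum_mem_powerset hr]
  have hlow : Low (Finset.univ.filter (fun x : ι => x < r)) := by
    intro x hx y hy
    rw [Finset.mem_filter] at hx ⊢
    exact ⟨Finset.mem_univ _, hy.trans hx.2⟩
  have hs := star hw (X.erase r).card (X.erase r) rfl _ hlow
  rw [Finset.card_erase_of_mem hr] at hs
  have hi : (X.erase r) ∩ (Finset.univ.filter (fun x : ι => x < r)) = X.filter (fun x => x < r) := by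
    ext x
    simp only [Finset.mem_inter, Finset.mem_erase, Finset.mem_filter, Finset.mem_univ, true_and]
    constructor
    · rintro ⟨⟨h1, h2⟩, h3⟩
      exact ⟨h2, h3⟩
    · rintro ⟨h1, h2⟩
      exact ⟨⟨h2.ne, h1⟩, h2⟩
  rw [hi] at hs
  rw [mul_comm (q ^ ((X.card - 1).choose 2)), ← hs, Finset.mul_sum]
  apply Finset.sum_congr rfl
  intro J hJ
  rw [Finset.mem_powerset] at hJ
  have hrJ : r ∉ J := fun h => by have := hJ h; simp at this
  rw [Finset.card_insert_of_notMem hrJ, Finset.erase_insert hrJ, pow_succ,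
    show X.card - (J.card + 1) = X.card - 1 - J.card by omega]
  ring

theorem Wr_eq_Rr {q : ℝ} (hq : 1 < q) (r : ι) : ∀ (n : ℕ) (X : Finset ι), X.card = n → r ∈ X →
    W q (X.erase r) (Finset.univ.filter (fun x => x < r)) = Rr q r X := by
  intro n
  induction n using Nat.strong_induction_on with
  | _ n ih =>
    intro X hXn hX
    have h1 := Wr_rec X hX q
    have h2 := Rr_rec X hX hq
    rw [← h2] at h1
    have hmem : X ∈ X.powerset.filter (fun J => r ∈ J) := by
      rw [Finset.mem_filter, Finset.mem_powerset]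
      exact ⟨le_rfl, hX⟩
    rw [← Finset.add_sum_erase _ _ hmem, ← Finset.add_sum_erase _ _ hmem] at h1
    have h3 : ∑ J ∈ (X.powerset.filter (fun J => r ∈ J)).erase X,
        (q - 1) ^ J.card * W q (J.erase r) (Finset.univ.filter (fun x => x < r)) *
          q ^ ((X.card - J.card).choose 2) =
        ∑ J ∈ (X.powerset.filter (fun J => r ∈ J)).erase X,
        (q - 1) ^ J.card * Rr q r J * q ^ ((X.card - J.card).choose 2) := by
      apply Finset.sum_congr rfl
      intro J hJ
      rw [Finset.mem_erase, Finset.mem_filter, Finset.mem_powerset] at hJ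
      have hlt : J.card < X.card := Finset.card_lt_card
        (Finset.ssubset_iff_subset_ne.2 ⟨hJ.2.1, hJ.1⟩)
      rw [ih J.card (by omega) J rfl hJ.2.2]
    rw [h3] at h1
    have h4 := add_right_cancel h1
    rw [Nat.sub_self] at h4
    simp only [Nat.choose_zero_succ, pow_zero, mul_one] at h4
    have h5 : (q - 1) ^ X.card ≠ 0 := pow_ne_zero _ (by linarith)
    exact mul_left_cancel₀ h5 h4

end Pool.Agent.KS6_13.SP
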